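import Pool.Agent.TH532.CP.Main

set_option autoImplicit false

/-!
# Composite values of polynomials at arbitrary families of affine images

For a fixed finite set `F` of nonconstant integer polynomials (for example `F = {X ^ 2 + 1}`), every
interval of length `Y` contains an integer `n` for which ALL the values `f (a n + b)`, `(f, a, b) ∈ 𝒯`,
are composite, for every family `𝒯` with `∑ (|a| / φ |a|) ^ e ≤ c log Y log log Y` (`e` bounds the
degrees) and `|a|, |b| ≤ exp ((log Y) ^ D)`.

Special cases for `f = X ^ 2 + 1`: strings of `c log Y log log Y` consecutive `n` with `n ^ 2 + 1`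
composite (then also `(n + z) ^ 2 + 1` for `z` in ANY set of so many integers, such as the powers of
two), `(j n) ^ 2 + 1` composite for all `j ≤ c log Y log log Y`, long strings in every progression
`m ≡ b (mod q)`, `q ≤ exp ((log Y) ^ D)`, all of this for finitely many polynomials at once.

Known before: one polynomial, consecutive integers, `(log Y) (log log Y) ^ (1 / 835)` (Ford,
Konyagin, Maynard, Pomerance, Tao; Ford, Gabdullin).

Method: the covering sieve of the starting files (helper256, helper426, W154: `covering_hitD`), run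
with the colours `g (a X + b) / content`, `g` an irreducible factor of `f`; the primes at which two
colours collide divide resultants and are removed, the profile condition comes from Mertens' theorem
for the roots of `g` (starting files, helper474), and the small primes are used by a weighted choice
of a residue class.
-/

open Polynomial

namespace Pool.Agent.Results.MP_484c84_nt.CompositeAffineImages

/-- Let `F` be a finite set of integer polynomials of degrees between `1` and `e`, and `D` a natural
number. There are `c > 0` and `Y₀` such that for all `Y ≥ Y₀`, all integers `M` and all finite sets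
`𝒯` of triples `(f, a, b)` with `f ∈ F`, `a ≠ 0`, `|a|, |b| ≤ exp ((log Y) ^ D)` and
`∑_{(f, a, b) ∈ 𝒯} (|a| / φ(|a|)) ^ e ≤ c log Y log log Y` some integer `n` with `M < n ≤ M + Y` has
the following property: for every `(f, a, b) ∈ 𝒯` the number `f (a n + b)` is composite; indeed it is
divisible by a prime `p < |f (a n + b)|` with `p ≤ exp ((log Y) ^ (1 / 20))`. -/
theorem result (F : Finset ℤ[X]) (e : ℕ) (hF : ∀ f ∈ F, 1 ≤ f.natDegree ∧ f.natDegree ≤ e)
    (D : ℕ) :
    ∃ c : ℝ, 0 < c ∧ ∃ Y₀ : ℝ, ∀ Y : ℝ, Y₀ ≤ Y → ∀ M : ℤ, ∀ 𝒯 : Finset (ℤ[X] × ℤ × ℤ),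
    (∀ t ∈ 𝒯, t.1 ∈ F ∧ t.2.1 ≠ 0 ∧ |(t.2.1 : ℝ)| ≤ Real.exp (Real.log Y ^ D) ∧
      |(t.2.2 : ℝ)| ≤ Real.exp (Real.log Y ^ D)) →
    ∑ t ∈ 𝒯, ((t.2.1.natAbs : ℝ) / Nat.totient t.2.1.natAbs) ^ e ≤
      c * Real.log Y * Real.log (Real.log Y) →
    ∃ n : ℤ, M < n ∧ (n : ℝ) ≤ M + Y ∧ ∀ t ∈ 𝒯, ∃ p : ℕ, p.Prime ∧
      (p : ℝ) ≤ Real.exp (Real.log Y ^ (1 / 20 : ℝ)) ∧
      (p : ℤ) ∣ t.1.eval (t.2.1 * n + t.2.2) ∧ (p : ℤ) < |t.1.eval (t.2.1 * n + t.2.2)| :=
  Pool.Agent.TH532.CP.main F e hF D

end Pool.Agent.Results.MP_484c84_nt.CompositeAffineImages
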