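import Pool.Agent.TH464.PO.PalmPoly
import Pool.Agent.TH464.PO.SqOne

set_option autoImplicit false

/-!
# `m ^ 2 + 1`: the almost prime values in several windows around an almost prime value

Let `m` be good if `m ^ 2 + 1` has at most `2 r` prime factors, all larger than `X ^ (1 / r)`, and let
`V` be the product of `1 - ρ(p) / p` over the primes `p ≤ X ^ (1 / r)`. Given `θ > 0`, a number `s` of
windows, a size `x` and an accuracy `ε`, for all `r ≥ r0 (θ, s, x, ε)`, all large `X` and ALL `Y` with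
`X ^ θ ≤ Y ≤ X`: if `m` runs through the good integers in `(X, X + Y]` (there are about `Y V` of them),
the numbers of the good integers in any `s` disjoint windows on both sides of `m`, at distance at most
`x / V` from `m` and not containing `m`, are asymptotically independent Poisson variables, whose means are
`V` times the lengths of the windows. In particular the gap before `m` and the gap after `m` are
asymptotically independent, with exponential distributions of mean `1 / V`.
-/

namespace Pool.Agent.Results.MP_484c84_nt.IndependentNeighbours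

open Finset Filter

/-- `m` is good: `m ^ 2 + 1` has at most `2 r` prime factors (with multiplicity), all larger than
`X ^ (1 / r)`. -/
def Good (r X m : ℕ) : Prop :=
  (m ^ 2 + 1).primeFactorsList.length ≤ 2 * r ∧
    ∀ p : ℕ, p.Prime → p ∣ m ^ 2 + 1 → (X : ℝ) ^ (1 / (r : ℝ)) < (p : ℝ)

open Classical in
/-- The sieve density: the product of `1 - ρ(p) / p` over the primes `p ≤ X ^ (1 / r)`, where `ρ(p)` is
the number of the `a` mod `p` with `p ∣ a ^ 2 + 1`. -/
noncomputable def V (r X : ℕ) : ℝ :=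
  ∏ p ∈ (Finset.range (⌊(X : ℝ) ^ (1 / (r : ℝ))⌋₊ + 1)).filter Nat.Prime,
    (1 - (((Finset.range p).filter (fun a => p ∣ a ^ 2 + 1)).card : ℝ) / p)

open Classical in
/-- The number of the good `m` in `(u, v]`. -/
noncomputable def N (r X u v : ℕ) : ℕ :=
  ((Finset.Ioc u v).filter (fun m => Good r X m)).card

/-- The probability of `A` for the Poisson distribution of mean `x`. -/
noncomputable def Poi (x : ℝ) (A : Finset ℕ) : ℝ :=
  ∑ j ∈ A, Real.exp (-x) * x ^ j / j.factorial

open Pool.Agent.TH464.PO Pool.Agent.W123.RU.Poly Pool.Agent.W123.RP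

lemma good_iff (r : ℕ) (hr : 1 ≤ r) : ∀ᶠ X : ℕ in atTop, ∀ m : ℕ, m ≤ 3 * X →
    (Sf (Q sq) ⌊(X : ℝ) ^ (1 / (r : ℝ))⌋₊ m ↔ Good r X m) := by
  have hrpos : (0 : ℝ) < r := by exact_mod_cast hr
  have hpow1 : Tendsto (fun X : ℕ => (X : ℝ) ^ (1 / (r : ℝ))) atTop atTop :=
    (tendsto_rpow_atTop (by positivity)).comp tendsto_natCast_atTop_atTop
  filter_upwards [hpow1.eventually_ge_atTop 10, eventually_ge_atTop 1] with X h10 hX1
  exact fun m hm => sf_AP r hr X hX1 h10 m hm

lemma V_eq (r X : ℕ) : Vq (Q sq) ⌊(X : ℝ) ^ (1 / (r : ℝ))⌋₊ = V r X := sq_V _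

open Classical in
/-- **The joint law in several windows around the good integers, in every short interval.** The windows
around `m` are the `(m - c + a_i, m - c + b_i]`; as `b_i < c` or `c ≤ a_i`, they do not contain `m`. -/
theorem result (θ : ℝ) (hθ : 0 < θ) (s : ℕ) (x ε : ℝ) (hε : 0 < ε) :
    ∃ r0 : ℕ, ∀ r : ℕ, r0 ≤ r → ∀ᶠ X : ℕ in atTop, ∀ Y : ℕ, (X : ℝ) ^ θ ≤ Y → Y ≤ X →
      ∀ (c : ℕ) (a b : Fin s → ℕ), c * V r X ≤ x → (∀ i, a i ≤ b i) → (∀ i, b i * V r X ≤ x) →
      (∀ i, b i < c ∨ c ≤ a i) → (∀ i j, i ≠ j → b i ≤ a j ∨ b j ≤ a i) →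
      ∀ A : Fin s → Finset ℕ,
        |(((Finset.Ioc X (X + Y)).filter (fun m => Good r X m ∧
            ∀ i, N r X (m + a i - c) (m + b i - c) ∈ A i)).card : ℝ) -
          Y * V r X * ∏ i, Poi (((b i : ℝ) - a i) * V r X) (A i)| ≤ ε * (Y * V r X) :=
  pack_palm sq Good V sq_sys sq_noTr good_iff V_eq θ hθ s x ε hε

end Pool.Agent.Results.MP_484c84_nt.IndependentNeighbours
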