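import Pool.Agent.TH464.PW.Points
import Pool.Agent.TH464.PW.Quad

set_option autoImplicit false

/-!
# `n ^ 2 + 1`: the neighbourhoods of almost all almost prime values in all short intervals

Let `0 < θ ≤ 1`. For a suitable `r` every interval `(X, X + Y]` with `X ^ θ ≤ Y ≤ X` contains at
least `κ Y / log X` integers `m` for which `m ^ 2 + 1` has at most `r` prime factors, all larger than
`X ^ (1 / r)`; and for all but `ε Y / log X` of them the number of such integers in ALL windows around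
`m` of length between `log X / c` and `Y` has the right order of magnitude, and they have up to `δ`
constant density on both sides of `m` at all but `B (ε, δ)` dyadic scales.
-/

namespace Pool.Agent.Results.MP_484c84_nt.NeighboursOfAlmostPrimes

open Finset Filter

/-- `m ^ 2 + 1` has at most `r` prime factors (with multiplicity), all larger than `X ^ (1 / r)`. -/
def AlmostPrimeValue (r X m : ℕ) : Prop :=
  (m ^ 2 + 1).primeFactorsList.length ≤ r ∧
    ∀ p : ℕ, p.Prime → p ∣ m ^ 2 + 1 → (X : ℝ) ^ (1 / (r : ℝ)) < (p : ℝ)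

open Classical in
/-- The number of the `k` in `(u, v]` with `k ^ 2 + 1` almost prime at height `X`. -/
noncomputable def N (r X u v : ℕ) : ℕ :=
  ((Finset.Ioc u v).filter (fun k => AlmostPrimeValue r X k)).card

/-- All windows around `m` of length at least `log X / c` have the right order. -/
def RightOrder (r : ℕ) (c : ℝ) (X Y m : ℕ) : Prop :=
  ∀ s t : ℕ, s ≤ Y → t ≤ Y → Real.log X ≤ c * (s + t) →
    c * (s + t) / Real.log X ≤ N r X (m - s) (m + t) ∧
      (N r X (m - s) (m + t) : ℝ) ≤ (s + t) / (c * Real.log X)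

/-- Constant density, up to `δ`, on both sides of `m` up to the distance `2 ^ j`. -/
def ConstantDensity (r : ℕ) (c δ : ℝ) (X m j : ℕ) : Prop :=
  ∃ lam : ℝ, c ≤ lam ∧ lam ≤ 1 / c ∧ ∀ s t : ℕ, s ≤ 2 ^ j → t ≤ 2 ^ j →
    |(N r X (m - s) (m + t) : ℝ) - lam * (s + t) / Real.log X| ≤ δ * 2 ^ j / Real.log X

open Classical in
/-- The number of the scales `log X ≤ 2 ^ j ≤ Y` without this property. -/
noncomputable def badScales (r : ℕ) (c δ : ℝ) (X Y m : ℕ) : ℕ :=
  ((Finset.range (Nat.log 2 Y + 1)).filter (fun j => Real.log X ≤ (2 : ℝ) ^ j ∧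
    ¬ ConstantDensity r c δ X m j)).card

open Pool.Agent.TH464.PW

lemma almost_eq (r X m : ℕ) :
    Almost (fun _ : Fin 1 => quad 1 0 1) r ((X : ℝ) ^ (1 / (r : ℝ))) m ↔ AlmostPrimeValue r X m := by
  unfold Almost AlmostPrimeValue
  have e : (quad 1 0 1).eval (m : ℤ) = ((m ^ 2 + 1 : ℕ) : ℤ) := by
    rw [quad_eval]
    push_cast
    ring
  simp only [e, Int.natAbs_natCast, forall_const, Int.natCast_dvd_natCast]

open Classical in
lemma N_eq : Nc (fun _ : Fin 1 => quad 1 0 1) = N := by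
  funext r X u v
  unfold Nc N
  congr 1
  apply Finset.filter_congr
  intro m _
  exact almost_eq r X m

lemma log_eq (X : ℕ) : Real.log (X : ℝ) ^ (Fintype.card (Fin 1)) = Real.log (X : ℝ) := by
  rw [Fintype.card_fin, pow_one]

lemma right_eq : RightO (fun _ : Fin 1 => quad 1 0 1) = RightOrder := by
  funext r c X Y m
  unfold RightO RightOrder
  simp only [log_eq, N_eq]

lemma const_eq : ConstS (fun _ : Fin 1 => quad 1 0 1) = ConstantDensity := by
  funext r c δ X m j
  unfold ConstS ConstantDensity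
  simp only [log_eq, N_eq]

lemma bad_eq : badS (fun _ : Fin 1 => quad 1 0 1) = badScales := by
  funext r c δ X Y m
  unfold badS badScales
  rw [const_eq, log_eq]

open Classical in
/-- **Almost all almost prime values of `n ^ 2 + 1` in every short interval.** -/
theorem result (θ : ℝ) (hθ : 0 < θ) (hθ1 : θ ≤ 1) :
    ∃ r : ℕ, (∃ κ : ℝ, 0 < κ ∧ ∀ᶠ X : ℕ in atTop, ∀ Y : ℕ, (X : ℝ) ^ θ ≤ Y → Y ≤ X →
      κ * Y / Real.log X ≤ N r X X (X + Y)) ∧
    ∀ ε : ℝ, 0 < ε → ∃ c : ℝ, 0 < c ∧ ∀ δ : ℝ, 0 < δ → ∃ B : ℕ,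
      ∀ᶠ X : ℕ in atTop, ∀ Y : ℕ, (X : ℝ) ^ θ ≤ Y → Y ≤ X →
        (((Finset.Ioc X (X + Y)).filter (fun m => AlmostPrimeValue r X m ∧
          ¬ (RightOrder r c X Y m ∧ badScales r c δ X Y m ≤ B))).card : ℝ) ≤
            ε * Y / Real.log X := by
  have h := main_points (fun _ : Fin 1 => quad 1 0 1)
    ⟨fun _ => quad_irr 1 0 1 one_ne_zero (fun p hp h => by
        have h1 : p ∣ 1 := by exact_mod_cast h.1
        exact hp.one_lt.ne' (Nat.dvd_one.1 h1)) (by
        rintro ⟨x, hx⟩
        nlinarith [mul_self_nonneg x]),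
      fun _ => by rw [quad_deg 1 0 1 one_ne_zero]; norm_num,
      fun _ => by rw [quad_lead 1 0 1 one_ne_zero]; norm_num, fun _ _ _ => Subsingleton.elim _ _,
      fun p hp => ⟨0, fun _ h => by
        rw [quad_eval] at h
        have h1 : p ∣ 1 := by
          have h2 : (p : ℤ) ∣ ((1 : ℕ) : ℤ) := by
            simpa using h
          exact_mod_cast h2
        exact hp.one_lt.ne' (Nat.dvd_one.1 h1)⟩⟩ θ hθ hθ1
  obtain ⟨r, h1, h2⟩ := h
  rw [N_eq] at h1
  simp only [log_eq] at h1 h2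
  refine ⟨r, h1, ?_⟩
  intro ε hε
  obtain ⟨c, hc, h3⟩ := h2 ε hε
  refine ⟨c, hc, ?_⟩
  intro δ hδ
  obtain ⟨B, h4⟩ := h3 δ hδ
  refine ⟨B, ?_⟩
  filter_upwards [h4] with X hX Y hXY hYX
  refine le_trans (le_of_eq ?_) (hX Y hXY hYX)
  congr 2
  apply Finset.filter_congr
  intro m _
  rw [almost_eq, right_eq, bad_eq]

end Pool.Agent.Results.MP_484c84_nt.NeighboursOfAlmostPrimes
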